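import Pool.Agent.Q35.DP.Plan

/-! JOB EXT of project DP: lifts of derivations of the field of constants. -/

set_option autoImplicit false
set_option linter.unusedSectionVars false

namespace Pool.Agent.Q63.DP

open FF Pool.Agent.W603.LV Pool.Agent.TH145.GH Pool.Agent.Y166.DP Pool.Agent.Q35.DP
open Polynomial TensorProduct

section
variable {k K : Type} [Field k] [Field K] [Algebra k K]

/-- `K` is algebraic over `k[X]`, mapped by `X ↦ x`. -/
theorem alg_poly [IsFF k K] {x : K} (hx : Transcendental k x) :
    let _ : Algebra k[X] K := ((aeval x : k[X] →ₐ[k] K) : k[X] →+* K).toAlgebra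
    Algebra.IsAlgebraic k[X] K := by
  let _ : Algebra k[X] K := ((aeval x : k[X] →ₐ[k] K) : k[X] →+* K).toAlgebra
  have h1 : Algebra.IsAlgebraic (Algebra.adjoin k {x}) K := by
    have h1 := (IsFF.basis hx).isAlgebraic
    have h2 : Set.range (fun _ : Unit => x) = {x} := by simp
    rwa [h2] at h1
  refine Algebra.IsAlgebraic.of_ringHom_of_comp_eq
    (f := ((Polynomial.algEquivOfTranscendental k x hx : k[X] ≃ₐ[k] Algebra.adjoin k {x}) :
      k[X] →+* Algebra.adjoin k {x}))
    (g := RingHom.id K) ?_ Function.injective_id ?_
  · exact (Polynomial.algEquivOfTranscendental k x hx).surjective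
  · ext a
    · simp [RingHom.algebraMap_toAlgebra]
    · simp [RingHom.algebraMap_toAlgebra]

/-- Derivations of the constants extend with any value at a transcendental element. -/
theorem exists_lift [CharZero k] [IsFF k K] {x : K} (hx : Transcendental k x)
    (D : Derivation ℤ k k) : ∃ D' : Derivation ℤ K K, Lifts D D' ∧ D' x = 0 := by
  let _ : Algebra k[X] K := ((aeval x : k[X] →ₐ[k] K) : k[X] →+* K).toAlgebra
  have hinj : Function.Injective (algebraMap k[X] K) := transcendental_iff_injective.1 hx
  have halg : Algebra.IsAlgebraic k[X] K := alg_poly hx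
  have hst : IsScalarTower k k[X] K := IsScalarTower.of_algebraMap_eq' (by
    ext c
    simp [RingHom.algebraMap_toAlgebra])
  have hfs : FaithfulSMul k[X] K := (faithfulSMul_iff_algebraMap_injective _ _).2 hinj
  let _ : Algebra (FractionRing k[X]) K := FractionRing.liftAlgebra k[X] K
  have hst2 : IsScalarTower k[X] (FractionRing k[X]) K := inferInstance
  have halg2 : Algebra.IsAlgebraic (FractionRing k[X]) K :=
    (IsFractionRing.comap_isAlgebraic_iff (A := k[X]) (K := FractionRing k[X]) (C := K)).1 halg
  have hchar0 : CharZero k[X] := inferInstance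
  have hchar : CharZero (FractionRing k[X]) :=
    charZero_of_injective_algebraMap (IsFractionRing.injective k[X] (FractionRing k[X]))
  have hsep : Algebra.IsSeparable (FractionRing k[X]) K := inferInstance
  have h1 : Algebra.FormallyEtale (FractionRing k[X]) K := Algebra.FormallyEtale.of_isSeparable _ _
  have h2 : Algebra.FormallyEtale k[X] (FractionRing k[X]) :=
    Algebra.FormallyEtale.of_isLocalization (nonZeroDivisors k[X])
  have h3 : Algebra.FormallyEtale k[X] K :=
    Algebra.FormallyEtale.comp k[X] (FractionRing k[X]) K
  let e := KaehlerDifferential.tensorKaehlerEquivOfFormallyEtale ℤ k[X] K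
  let _ : Differential k := ⟨D⟩
  let d : Derivation ℤ k[X] K := (Algebra.linearMap k[X] K).compDer Differential.mapCoeffs
  let l : Ω[k[X]⁄ℤ] →ₗ[k[X]] K := d.liftKaehlerDifferential
  let Λ : Ω[K⁄ℤ] →ₗ[K] K := (LinearMap.liftBaseChange K l).comp e.symm.toLinearMap
  let D' : Derivation ℤ K K := Λ.compDer (KaehlerDifferential.D ℤ K)
  have hD : ∀ p : k[X], D' (algebraMap k[X] K p) = algebraMap k[X] K (Differential.mapCoeffs p) := by
    intro p
    change Λ (KaehlerDifferential.D ℤ K (algebraMap k[X] K p)) = _
    change LinearMap.liftBaseChange K l (e.symm (KaehlerDifferential.D ℤ K _)) = _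
    rw [KaehlerDifferential.tensorKaehlerEquivOfFormallyEtale_symm_D_algebraMap]
    simp [l, d]
  refine ⟨D', ?_, ?_⟩
  · intro c
    have h5 : algebraMap k K c = algebraMap k[X] K (C c) := by
      simp [RingHom.algebraMap_toAlgebra]
    rw [h5, hD]
    have h6 : Differential.mapCoeffs (C c : k[X]) = C (D c) := by
      rw [← monomial_zero_left, Differential.mapCoeffs_monomial, monomial_zero_left]
      rfl
    rw [h6]
    simp [RingHom.algebraMap_toAlgebra]
  · have h5 : x = algebraMap k[X] K X := by
      simp [RingHom.algebraMap_toAlgebra]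
    rw [h5, hD, Differential.mapCoeffs_X, map_zero]

/-- A derivation that kills the constants and `x` is zero. -/
theorem eq_zero_of [CharZero k] [IsFF k K] {x : K} (hx : Transcendental k x)
    (D : Derivation ℤ K K) (h0 : ∀ c : k, D (algebraMap k K c) = 0) (h1 : D x = 0) : D = 0 := by
  have hz : ∀ f ∈ IntermediateField.adjoin k {x}, D f = 0 := by
    intro f hf
    induction hf using IntermediateField.adjoin_induction with
    | mem f hf => rw [Set.mem_singleton_iff.1 hf, h1]
    | algebraMap c => exact h0 c
    | add a b _ _ ha hb => rw [map_add, ha, hb, add_zero]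
    | inv a _ ha =>
      by_cases ha0 : a = 0
      · rw [ha0, inv_zero, map_zero]
      · rw [Derivation.leibniz_inv, ha]; simp
    | mul a b _ _ ha hb => rw [D.leibniz, ha, hb]; simp
  have halg := IsFF.isAlgebraic hx
  let E := IntermediateField.adjoin k {x}
  have hchar : CharZero E := charZero_of_injective_algebraMap (algebraMap k E).injective
  let D₀ : Derivation E K K :=
    { toFun := D
      map_add' := map_add D
      map_smul' := fun a f => by
        rw [Algebra.smul_def, D.leibniz]
        have : D (algebraMap E K a) = 0 := hz _ a.2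
        rw [this]
        simp [Algebra.smul_def]
      map_one_eq_zero' := D.map_one_eq_zero
      leibniz' := D.leibniz }
  have hsep : Algebra.IsSeparable E K := inferInstance
  have hun : Algebra.FormallyUnramified E K := Algebra.FormallyUnramified.of_isSeparable E K
  have hs : Subsingleton (Ω[K⁄E]) := Algebra.FormallyUnramified.subsingleton_kaehlerDifferential
  have hD : D₀ = 0 := by
    have h2 : D₀.liftKaehlerDifferential = 0 := Subsingleton.elim _ _
    have h3 := D₀.liftKaehlerDifferential_comp
    rw [← h3, h2]
    ext; simp
  ext f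
  have := congrArg (fun T : Derivation E K K => T f) hD
  exact this

end

theorem ext : StmExt := by
  intro k K _ _ _ _ _ x hx
  refine ⟨fun D => exists_lift hx D, fun D₁ D₂ h h' => ?_⟩
  rw [← sub_eq_zero]
  refine eq_zero_of hx _ (fun c => ?_) ?_
  · rw [Derivation.sub_apply, h, sub_self]
  · rw [Derivation.sub_apply, h', sub_self]

end Pool.Agent.Q63.DP
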